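import Pool.Agent.H24.RCN.Targets

/-!
NTB: the element is not a power (row NTB of the board rct_modules, MP_4d5ac9_nt).
-/

set_option autoImplicit false

open NumberField Pool.Agent.H24.RCN

namespace Pool.Agent.H89.RCN

theorem ntb_num (q m X κ d S : ℕ) (hκ : 3 ≤ κ) (hX : X ^ κ = S ^ (κ - 1)) (hX0 : 1 ≤ X)
    (hm : m = (d - 1) * (κ - 1)) (h : q ^ m * X ^ (2 * (κ - 1)) ≤ 2 ^ m * (X ^ κ) ^ 2) :
    q ^ ((d - 1) * κ) ≤ 2 ^ ((d - 1) * κ) * S ^ 2 := by
  have h1 : q ^ m ≤ 2 ^ m * X ^ 2 := by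
    have e1 : (X ^ κ) ^ 2 = X ^ 2 * X ^ (2 * (κ - 1)) := by
      rw [← pow_mul, ← pow_add]
      congr 1
      omega
    rw [e1, ← mul_assoc] at h
    exact Nat.le_of_mul_le_mul_right h (pow_pos hX0 _)
  have h2 := Nat.pow_le_pow_left h1 κ
  have h3 : (q ^ ((d - 1) * κ)) ^ (κ - 1) ≤ (2 ^ ((d - 1) * κ) * S ^ 2) ^ (κ - 1) := by
    calc (q ^ ((d - 1) * κ)) ^ (κ - 1) = (q ^ m) ^ κ := by
          rw [← pow_mul, ← pow_mul, hm]
          congr 1
          ring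
      _ ≤ (2 ^ m * X ^ 2) ^ κ := h2
      _ = (2 ^ m) ^ κ * (X ^ κ) ^ 2 := by
          rw [mul_pow, ← pow_mul X, ← pow_mul X, mul_comm 2 κ]
      _ = (2 ^ m) ^ κ * (S ^ (κ - 1)) ^ 2 := by rw [hX]
      _ = (2 ^ ((d - 1) * κ) * S ^ 2) ^ (κ - 1) := by
          rw [mul_pow, ← pow_mul, ← pow_mul, ← pow_mul, ← pow_mul, hm, mul_comm 2 (κ - 1)]
          congr 2
          ring
  exact (Nat.pow_le_pow_iff_left (by omega)).1 h3

theorem pf_NTB (h1 : T_NT1) (hnor : T_NOR) (hsiz : T_SIZ) (hnum : T_NUM) : T_NTB := by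
  intro F _ _ r e d p k κ _ ζ hD hζ A hA
  obtain ⟨Φ, I, I', hN, hI, hne, hdvd⟩ := h1 F r e d p k κ ζ hD hζ A hA
  have hnr := hnor F r e d p k κ ζ hD hζ (d - 1) (by have := hD.hd5; omega)
    (by have := hD.hd5; omega)
  obtain ⟨Pb, hPb⟩ : ∃ Pb : 𝓞 F, Pb = 1 - ζ ^ (d - 1) * ((r ^ e : ℕ) : 𝓞 F) := ⟨_, rfl⟩
  obtain ⟨P, hP⟩ : ∃ P : 𝓞 F, P = 1 - ζ * ((r ^ e : ℕ) : 𝓞 F) := ⟨_, rfl⟩
  rw [← hPb] at hI hne hdvd hA hnr
  rw [← hP] at hA
  have hd5 := hD.hd5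
  have hκ3 : 3 ≤ κ := by
    have := hD.hκ.two_le
    have := hD.hκ2
    omega
  have hp0 : 0 < p := hD.hp.pos
  have hX : Ideal.absNorm I ^ κ = (p ^ k) ^ (κ - 1) := by
    rw [← map_pow, hI, hnr, pow_mul]
  have hX0 : 1 ≤ Ideal.absNorm I := by
    rcases Nat.eq_zero_or_pos (Ideal.absNorm I) with h | h
    · rw [h, zero_pow (by omega)] at hX
      exact absurd hX.symm (pow_pos (pow_pos hp0 k) _).ne'
    · exact h
  have hPb0 : Pb ≠ 0 := by
    intro h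
    rw [h] at hnr
    have h2 : Ideal.absNorm (Ideal.span {(0 : 𝓞 F)}) = 0 := by simp
    rw [h2] at hnr
    exact absurd hnr.symm (pow_pos hp0 _).ne'
  have hdκ : 0 < d * κ := Nat.mul_pos (by omega) (by omega)
  have : NeZero (d * κ) := ⟨hdκ.ne'⟩
  have hm : Module.finrank ℚ F = (d - 1) * (κ - 1) := by
    rw [IsCyclotomicExtension.finrank (n := d * κ) F
      (Polynomial.cyclotomic.irreducible_rat hdκ),
      Nat.totient_mul ((Nat.coprime_primes hD.hd hD.hκ).2 hD.hκd.symm),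
      Nat.totient_prime hD.hd, Nat.totient_prime hD.hκ]
  have hq : Ideal.absNorm (Ideal.span {((r ^ e : ℕ) : 𝓞 F)}) = (r ^ e) ^ Module.finrank ℚ F := by
    rw [Ideal.absNorm_span_natCast, RingOfIntegers.rank]
  have hle1 : (r ^ e) ^ Module.finrank ℚ F * Ideal.absNorm I ^ (2 * (κ - 1)) ≤
      Ideal.absNorm (Ideal.span {Φ A * Pb - A * Φ Pb}) := by
    apply Nat.le_of_dvd
    · rw [Nat.pos_iff_ne_zero, Ne, Ideal.absNorm_eq_zero_iff, Ideal.span_singleton_eq_bot]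
      exact hne
    · have h2 := map_dvd Ideal.absNorm hdvd
      rw [map_mul, map_mul, map_pow, map_pow, hN, hq, ← pow_add, ← two_mul] at h2
      exact h2
  have hle2 := hsiz F Φ P Pb A κ (by omega) hPb0 hA (by
    intro τ
    have hz : (τ (ζ : F)) ^ d = 1 := by
      rw [← map_pow]
      have h3 : ((ζ : F)) ^ d = 1 := by
        have h4 := congrArg (algebraMap (𝓞 F) F) hζ.pow_eq_one
        rw [map_pow, map_one] at h4
        exact h4
      rw [h3, map_one]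
    have hn : ‖τ (ζ : F)‖ = 1 := Complex.norm_eq_one_of_pow_eq_one hz (by omega)
    have hc : (τ (ζ : F)) ^ (d - 1) = (starRingEnd ℂ) (τ (ζ : F)) := by
      have h5 : τ (ζ : F) ≠ 0 := by
        intro h
        rw [h, norm_zero] at hn
        exact zero_ne_one hn
      apply mul_right_cancel₀ h5
      rw [← pow_succ, Nat.sub_add_cancel (by omega), hz, mul_comm, Complex.mul_conj,
        Complex.normSq_eq_norm_sq, hn]
      norm_num
    have e1 : τ (P : F) = 1 - τ (ζ : F) * ((r ^ e : ℕ) : ℂ) := by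
      rw [hP]
      simp
    have e2 : τ (Pb : F) = (starRingEnd ℂ) (τ (P : F)) := by
      rw [e1, hPb, map_sub, map_mul, ← hc]
      simp
    rw [e2, Complex.norm_conj])
  rw [hnr] at hle2
  have hfin := ntb_num (r ^ e) (Module.finrank ℚ F) (Ideal.absNorm I) κ d (p ^ k) hκ3 hX hX0 hm
    (hle1.trans (by
      rw [hX, ← pow_mul p]
      exact hle2))
  have hlt := hnum d κ (r ^ e) hd5 hκ3 (by
    have h6 : 2 ≤ r ^ e := by
      have h7 := hD.hr.two_le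
      calc 2 ≤ r := h7
        _ = r ^ 1 := (pow_one r).symm
        _ ≤ r ^ e := Nat.pow_le_pow_right (by omega) hD.he
    have h8 := Nat.le_of_dvd (by omega) hD.hκq
    omega)
  rw [hD.eq] at hlt
  exact absurd hfin (not_le.2 hlt)

end Pool.Agent.H89.RCN
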